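import Pool.Agent.X286.Go.Win
import Pool.Agent.Results.MP_33f996_nt.QuadraticValues

/-!
# Goldbach partitions of the even integers near the multiples of powers by a random real number

From `Pool.Agent.H560R3.GB.Defs`: `sing m = 2 C₂ ∏_{p ∣ m, p > 2} (p - 1) / (p - 2)`, the singular series. From
`Pool.Agent.Results.MP_33f996_nt.QuadraticValues`: `cnt m` is the number of the primes `p` with `√m < p < m / 2` for
which `m - p` is also a prime, `expected m = (sing m / 2) (m / log ^ 2 m)`, and `Holds ε m` says that there is such a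
prime and that `|cnt m - expected m| ≤ ε expected m`.
-/

set_option autoImplicit false

namespace Pool.Agent.Results.MP_33f996_nt.AlmostEveryRealNumber

open MeasureTheory ProbabilityTheory Finset Pool.Agent.H560R3.GB
  Pool.Agent.Results.MP_33f996_nt.QuadraticValues

/-- the number of the primes `p` with `u < p ≤ v` for which `m - p` is also a prime -/
def pairs (m u v : ℕ) : ℕ := ((Ioc u v).filter fun p => p.Prime ∧ (m - p).Prime).card

/-- There is a prime `p` with `√m < p < m / 2` for which `m - p` is also a prime, the number of these primes is as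
expected up to a factor between `1 - ε` and `1 + ε`, and so is their number in every window `(u, v]` with `v ≤ m` of
length at least `m / (log m) ^ A`. -/
def Good (ε : ℝ) (A m : ℕ) : Prop :=
  Holds ε m ∧ ∀ u v : ℕ, u < v → v ≤ m → (m : ℝ) / Real.log m ^ A ≤ (v : ℝ) - u →
    |(pairs m u v : ℝ) - sing m * ((v : ℝ) - u) / Real.log m ^ 2| ≤
      ε * (sing m * ((v : ℝ) - u) / Real.log m ^ 2)

/-- The random real number `∑ X j / b ^ (j + 1)`, with the digits `X 0, X 1, ...` after the point in base `b`. -/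
noncomputable def number {Ω : Type} (b : ℕ) (X : ℕ → Ω → ℤ) (ω : Ω) : ℝ :=
  ∑' j : ℕ, (X j ω : ℝ) / (b : ℝ) ^ (j + 1)

theorem g_eq (m : ℕ) : g m = Pool.Agent.W93.PG.cnt m 0 m := by
  classical
  unfold g Pool.Agent.W93.PG.cnt
  apply card_bij' (fun q _ => q.1) (fun p _ => (p, m - p))
  · rintro ⟨p, q⟩ hq
    rw [mem_filter, HasAntidiagonal.mem_antidiagonal] at hq
    rw [mem_filter, mem_Ioc]
    simp only at hq ⊢
    have h2 := hq.2.1.two_le
    refine ⟨by omega, hq.2.1, ?_⟩
    rw [show m - p = q by omega]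
    exact hq.2.2
  · intro p hp
    rw [mem_filter, mem_Ioc] at hp
    rw [mem_filter, HasAntidiagonal.mem_antidiagonal]
    exact ⟨by simp only; omega, hp.2.1, hp.2.2⟩
  · rintro ⟨p, q⟩ hq
    rw [mem_filter, HasAntidiagonal.mem_antidiagonal] at hq
    simp only at hq ⊢
    rw [show m - p = q by omega]
  · intro p hp
    rfl

theorem fromWin (ε : ℝ) (hε : 0 < ε) (A : ℕ) : Pool.Agent.X286.Go.FromWin (Good ε A) := by
  obtain ⟨m₀, h0⟩ := holds_of ε hε
  have hm : 0 < min ε 1 := lt_min hε one_pos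
  refine ⟨min ε 1 / 4, A, m₀ + 3, by positivity, fun m hm1 hm2 hW => ⟨h0 m (by omega) ?_, ?_⟩⟩
  · have hm3 : (3 : ℝ) ≤ m := by exact_mod_cast (by omega : 3 ≤ m)
    have hlog : 1 ≤ Real.log m := by
      rw [← Real.log_exp 1]
      apply Real.log_le_log (Real.exp_pos 1)
      linarith [Real.exp_one_lt_d9]
    have h1 := hW 0 m (by omega) le_rfl (by
      rw [Nat.cast_zero, sub_zero]
      exact div_le_self (by linarith) (one_le_pow₀ hlog))
    rw [← g_eq, Nat.cast_zero, sub_zero, mul_div_assoc] at h1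
    exact h1
  · intro u v huv hv hlen
    have h1 := hW u v huv hv hlen
    refine h1.trans (mul_le_mul_of_nonneg_right ?_ ?_)
    · have := min_le_left ε 1
      linarith
    · have h2 := Pool.Agent.W93.GB.one_le_sing m
      have h3 : (u : ℝ) ≤ v := by exact_mod_cast huv.le
      have h4 : 0 ≤ (v : ℝ) - u := by linarith
      positivity

theorem mono {ε ε' : ℝ} (h : ε ≤ ε') {A m : ℕ} (hm : 1 ≤ m) (hG : Good ε A m) : Good ε' A m := by
  have hs := Pool.Agent.W93.GB.one_le_sing m
  refine ⟨⟨hG.1.1, hG.1.2.trans (mul_le_mul_of_nonneg_right h ?_)⟩, fun u v huv hv hlen =>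
    (hG.2 u v huv hv hlen).trans (mul_le_mul_of_nonneg_right h ?_)⟩
  · unfold expected
    positivity
  · have h3 : (u : ℝ) ≤ v := by exact_mod_cast huv.le
    have h4 : 0 ≤ (v : ℝ) - u := by linarith
    positivity

/-- **Goldbach partitions near the multiples of powers by random real numbers.**
Let the digits `X j` (`j = 0, 1, 2, ...`) be independent random integers on any probability space, `|X j| ≤ B`, and let
no value of `X j` have a probability above `1 - η`, for all `j` in a set `J` which contains at least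
`(3 / 5 + δ) m - D log k` elements of every segment `[k - m, k)`; for the other `j` nothing is assumed (`X j` may be
constant). Then, almost surely, the number `α = ∑ X j / b ^ (j + 1)` has the following property: for all `ε > 0`, `A`,
`U` and all but finitely many `k`, all the even integers `m > 0` with `|m - α b ^ k| ≤ k ^ U` are good. -/
theorem result (b B D : ℕ) (η δ : ℝ) (J : Set ℕ) (hb : 2 ≤ b) (hη : 0 < η) (hδ : 0 < δ)
    (hJ : ∀ k m : ℕ, m ≤ k →
      (3 / 5 + δ) * m ≤ ({j | j ∈ J ∧ k - m ≤ j ∧ j < k}.ncard : ℝ) + D * Real.log k)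
    (Ω : Type) [MeasurableSpace Ω] (μ : Measure Ω) [IsProbabilityMeasure μ] (X : ℕ → Ω → ℤ)
    (hX : ∀ j, Measurable (X j)) (hI : iIndepFun X μ) (hXB : ∀ j ω, |X j ω| ≤ B)
    (hXJ : ∀ j ∈ J, ∀ x : ℤ, μ.real {ω | X j ω = x} ≤ 1 - η) :
    ∀ᵐ ω ∂μ, ∀ ε : ℝ, 0 < ε → ∀ A U : ℕ, ∃ k₀ : ℕ, ∀ k : ℕ, k₀ ≤ k →
      ∀ m : ℕ, 0 < m → Even m → |(m : ℝ) - number b X ω * (b : ℝ) ^ k| ≤ (k : ℝ) ^ U →
        Good ε A m := by
  have hQ : ∀ n A : ℕ, Pool.Agent.X286.Go.FromWin (Good (1 / ((n : ℝ) + 1)) A) := fun n A =>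
    fromWin _ (by positivity) A
  filter_upwards [Pool.Agent.X286.Go.reals_all hQ hb hη hδ hJ hX hI hXB hXJ] with ω hω
  intro ε hε A U
  obtain ⟨n, hn⟩ := exists_nat_one_div_lt hε
  obtain ⟨k₀, hk₀⟩ := hω n A U
  exact ⟨k₀, fun k hk m hm0 hm2 hm => mono hn.le hm0 (hk₀ k hk m hm0 hm2 hm)⟩

end Pool.Agent.Results.MP_33f996_nt.AlmostEveryRealNumber
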