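import Pool.Agent.X55.Fam.LinCor

/-!
# Goldbach representations by almost primes with prescribed digital functions in short intervals

Let `S` be a strongly `b`-additive function with values in a finite abelian group `G` (for example the sum of the
digits in base `b`, or any vector of numbers of occurrences of nonzero digits, modulo some integers), which is not
degenerate: no nontrivial character of the group makes it a function of the residue of `n` modulo `b - 1`. We consider
the representations `N = n + (N - n)` of an even integer `N ≤ H ^ B`, where `B` is arbitrary, for the integers `n` with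
`S n = g` of an ARBITRARY interval `(M, M + H]` in `[0, N]`.
The number of the `n` for which `n` and `N - n` have a bounded number of prime factors, all greater than `H ^ δ`, has
the expected order of magnitude, the product of the expected number of the `n` and of the local factors
`1 - ν(q) / q` (`ν(q) = 1` or `2` as `q` divides `N` or not) over the primes `q ≤ H`; the number of the `n` for which
both are primes is at most of this order. The constants depend only on `B`, `b`, `S`: everything is uniform in `N`.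
The number of the `n` for which neither has a prime factor up to `y` is given by an asymptotic formula, which is also
uniform in `N`.
For example `(M, M + H]` can be any interval of a length at least `N ^ κ` in the window between `√N` and `N / 2`.

The proof combines a sieve which is uniform in the removed residue classes and the exponential sums of digital
functions (in the starting files), over the blocks of a short interval.
-/

set_option autoImplicit false

namespace Pool.Agent.Results.MP_33f996_nt.DigitalFunctions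

open Finset

/-- `S` is strongly `b`-additive (`S (b n + d) = S n + S d` for the digits `d < b`), and no nontrivial character of the
group maps `S n`, for all digits `n`, to the powers `z ^ n` of a number `z` with `z ^ (b - 1) = 1` -/
def Digital {G : Type} [AddCommGroup G] (b : ℕ) (S : ℕ → G) : Prop :=
  (∀ n d : ℕ, d < b → S (b * n + d) = S n + S d) ∧
  ∀ χ : AddChar G ℂ, χ ≠ 0 → ¬ (χ (S 1) ^ (b - 1) = 1 ∧ ∀ d < b, χ (S d) = χ (S 1) ^ d)

/-- `m ≠ 0` has at most `r` prime factors, counted with multiplicity, all of them greater than `x`. -/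
def AlmostPrime (r : ℕ) (x : ℝ) (m : ℕ) : Prop :=
  m ≠ 0 ∧ m.primeFactorsList.length ≤ r ∧ ∀ q : ℕ, q.Prime → q ∣ m → x < q

/-- the number of the `n` in `(M, M + H]` with the property `R` for which `n` and `N - n` are almost primes -/
noncomputable def almost (N r : ℕ) (x : ℝ) (M H : ℕ) (R : ℕ → Prop) : ℕ :=
  Set.ncard {n : ℕ | M < n ∧ n ≤ M + H ∧ R n ∧ AlmostPrime r x n ∧ AlmostPrime r x (N - n)}

/-- the number of the `n` in `(M, M + H]` with the property `R` for which `n` and `N - n` are primes -/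
noncomputable def primes (N M H : ℕ) (R : ℕ → Prop) : ℕ :=
  Set.ncard {n : ℕ | M < n ∧ n ≤ M + H ∧ R n ∧ n.Prime ∧ (N - n).Prime}

/-- the number of the `n` in `(M, M + H]` with the property `R` for which `n` and `N - n` have no prime factor up to
`y` -/
noncomputable def rough (N y M H : ℕ) (R : ℕ → Prop) : ℕ :=
  Set.ncard {n : ℕ | M < n ∧ n ≤ M + H ∧ R n ∧ ∀ q : ℕ, q.Prime → q ≤ y → ¬ q ∣ n ∧ ¬ q ∣ N - n}

/-- the product over the primes `q ≤ y` of `1 - ν(q) / q`, where `ν(q)` is the number of the residues `n` modulo `q`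
with `n = 0` or `n = N` modulo `q` -/
noncomputable def V (N y : ℕ) : ℝ :=
  ∏ q ∈ (Icc 1 y).filter Nat.Prime, (1 - (Set.ncard {n : ℕ | n < q ∧ (q ∣ n ∨ n ≡ N [MOD q])} : ℝ) / q)

/-- the bounds for the interval `(M, M + H]` and the property `R`, with the expected number `X` -/
def Bounds (N P r : ℕ) (δ c C : ℝ) (B M H : ℕ) (R : ℕ → Prop) (X : ℝ) : Prop :=
  (N ≤ P ^ B → c * (X * V N P) ≤ almost N r ((P : ℝ) ^ δ) M H R) ∧ (primes N M H R : ℝ) ≤ C * (X * V N P)

/-- the asymptotic formula for the interval `(M, M + H]` and the property `R`, with the expected number `X` -/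
def Rough (N : ℕ) (η : ℝ) (M H y : ℕ) (R : ℕ → Prop) (X : ℝ) : Prop :=
  |(rough N y M H R : ℝ) - X * V N y| ≤ η * (X * V N y)

/-- the coefficients of the two forms -/
def ca : Fin 2 → ℤ := ![1, -1]

/-- the constants of the two forms -/
def cb (N : ℕ) : Fin 2 → ℤ := ![0, (N : ℤ)]

lemma ca_ne (i : Fin 2) : ca i ≠ 0 := by
  fin_cases i <;> simp [ca]

lemma v1 (n : ℕ) : (1 * (n : ℤ) + 0).natAbs = n := by simp

lemma v2 {N n : ℕ} (h : n ≤ N) : (-1 * (n : ℤ) + (N : ℤ)).natAbs = N - n := by omega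

lemma V_eq (N y : ℕ) : Pool.Agent.X55.Fam.VL ca (cb N) y = V N y := by
  unfold Pool.Agent.X55.Fam.VL V
  refine prod_congr rfl fun q _ => ?_
  congr 4
  ext n
  have h1 : (∃ i, (q : ℤ) ∣ ca i * (n : ℤ) + cb N i) ↔ (q ∣ n ∨ n ≡ N [MOD q]) := by
    rw [Nat.modEq_iff_dvd]
    constructor
    · rintro ⟨i, hi⟩
      fin_cases i
      · left
        have h2 : (q : ℤ) ∣ 1 * (n : ℤ) + 0 := hi
        rw [one_mul, add_zero] at h2
        exact_mod_cast h2
      · right
        have h2 : (q : ℤ) ∣ -1 * (n : ℤ) + (N : ℤ) := hi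
        have h3 : (N : ℤ) - n = -1 * (n : ℤ) + (N : ℤ) := by ring
        rw [h3]
        exact h2
    · rintro (h | h)
      · refine ⟨0, ?_⟩
        show (q : ℤ) ∣ 1 * (n : ℤ) + 0
        rw [one_mul, add_zero]
        exact_mod_cast h
      · refine ⟨1, ?_⟩
        show (q : ℤ) ∣ -1 * (n : ℤ) + (N : ℤ)
        have h3 : -1 * (n : ℤ) + (N : ℤ) = (N : ℤ) - n := by ring
        rw [h3]
        exact h
  show (n < q ∧ _) ↔ (n < q ∧ _)
  rw [h1]

lemma all2 {N n : ℕ} (h : n ≤ N) (Q : ℕ → Prop) :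
    (∀ i, Q (ca i * (n : ℤ) + cb N i).natAbs) ↔ (Q n ∧ Q (N - n)) := by
  rw [Fin.forall_fin_two]
  have e1 : (ca 0 * (n : ℤ) + cb N 0).natAbs = n := v1 n
  have e2 : (ca 1 * (n : ℤ) + cb N 1).natAbs = N - n := v2 h
  rw [e1, e2]

lemma conv {N P r : ℕ} {δ c C : ℝ} {B M H : ℕ} {R : ℕ → Prop} {X : ℝ} (hP : 1 ≤ P) (hN : M + H ≤ N)
    (h : Pool.Agent.X55.Fam.BothL ca (cb N) P r δ c C B M H R X) : Bounds N P r δ c C B M H R X := by
  obtain ⟨h1, h2⟩ := h
  unfold Pool.Agent.X55.Fam.LoT at h1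
  unfold Pool.Agent.X55.Fam.UpL at h2
  rw [V_eq] at h1 h2
  have s1 : {n : ℕ | M < n ∧ n ≤ M + H ∧ R n ∧ ∀ i, Pool.Agent.X55.Fam.Good r ((P : ℝ) ^ δ)
      (ca i * (n : ℤ) + cb N i).natAbs} =
      {n : ℕ | M < n ∧ n ≤ M + H ∧ R n ∧ AlmostPrime r ((P : ℝ) ^ δ) n ∧ AlmostPrime r ((P : ℝ) ^ δ) (N - n)} := by
    ext n
    refine and_congr_right fun _ => and_congr_right fun h3 => and_congr_right fun _ => ?_
    exact all2 (h3.trans hN) (AlmostPrime r ((P : ℝ) ^ δ))
  have s2 : {n : ℕ | M < n ∧ n ≤ M + H ∧ R n ∧ ∀ i, (ca i * (n : ℤ) + cb N i).natAbs.Prime} =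
      {n : ℕ | M < n ∧ n ≤ M + H ∧ R n ∧ n.Prime ∧ (N - n).Prime} := by
    ext n
    refine and_congr_right fun _ => and_congr_right fun h3 => and_congr_right fun _ => ?_
    exact all2 (h3.trans hN) Nat.Prime
  rw [s1] at h1
  rw [s2] at h2
  have hPB : 1 ≤ P ^ B := Nat.one_le_pow _ _ hP
  refine ⟨fun hB => h1 (hN.trans hB) (fun i => ?_) (fun i => ?_), h2⟩
  · fin_cases i
    · exact hPB
    · exact hPB
  · fin_cases i
    · exact Nat.zero_le _
    · exact hB

lemma convA {N : ℕ} {η : ℝ} {M H y : ℕ} {R : ℕ → Prop} {X : ℝ} (hN : M + H ≤ N)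
    (h : Pool.Agent.X55.Fam.AsL ca (cb N) η M H y R X) : Rough N η M H y R X := by
  unfold Pool.Agent.X55.Fam.AsL at h
  rw [V_eq] at h
  have s1 : {n : ℕ | M < n ∧ n ≤ M + H ∧ R n ∧ ∀ q : ℕ, q.Prime → q ≤ y → ∀ i, ¬ (q : ℤ) ∣ ca i * (n : ℤ) + cb N i} =
      {n : ℕ | M < n ∧ n ≤ M + H ∧ R n ∧ ∀ q : ℕ, q.Prime → q ≤ y → ¬ q ∣ n ∧ ¬ q ∣ N - n} := by
    ext n
    refine and_congr_right fun _ => and_congr_right fun h3 => and_congr_right fun _ => forall_congr' fun q => ?_
    refine imp_congr_right fun _ => imp_congr_right fun _ => ?_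
    rw [← all2 (h3.trans hN) (fun m => ¬ q ∣ m)]
    refine forall_congr' fun i => ?_
    rw [Int.natCast_dvd]
  rw [s1] at h
  exact h

lemma adm {N : ℕ} (hN : Even N) (q : ℕ) (hq : q.Prime) : ∃ n : ℕ, ∀ i, ¬ (q : ℤ) ∣ ca i * (n : ℤ) + cb N i := by
  have key : ∃ n : ℕ, ¬ (q : ℤ) ∣ 1 * (n : ℤ) + 0 ∧ ¬ (q : ℤ) ∣ -1 * (n : ℤ) + (N : ℤ) := by
    have h1 : ¬ (q : ℤ) ∣ 1 := by
      intro h
      have := Int.eq_one_of_dvd_one (by positivity) h
      exact hq.one_lt.ne' (by exact_mod_cast this)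
    by_cases h : (q : ℤ) ∣ -1 * ((1 : ℕ) : ℤ) + (N : ℤ)
    · refine ⟨2, fun h2 => ?_, fun h2 => ?_⟩
      · have h3 : (q : ℤ) ∣ 2 := by simpa using h2
        have h4 : q ∣ 2 := by exact_mod_cast h3
        have h5 : q = 2 := (Nat.prime_dvd_prime_iff_eq hq Nat.prime_two).1 h4
        subst h5
        obtain ⟨t, ht⟩ := hN
        push_cast at h
        omega
      · apply h1
        have := dvd_sub h h2
        push_cast at this
        ring_nf at this
        simpa using this
    · refine ⟨1, fun h2 => h1 ?_, h⟩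
      simpa using h2
  obtain ⟨n, h1, h2⟩ := key
  refine ⟨n, fun i => ?_⟩
  fin_cases i
  · exact h1
  · exact h2

theorem result : ∀ (G : Type) [AddCommGroup G] [Fintype G] (b : ℕ) (S : ℕ → G), 2 ≤ b → Digital b S →
    (∀ B : ℕ, ∃ (r : ℕ) (δ c C : ℝ) (H₀ : ℕ), 0 < δ ∧ 0 < c ∧ 0 < C ∧
      ∀ H : ℕ, H₀ ≤ H → ∀ N : ℕ, Even N → ∀ (M : ℕ) (g : G), M + H ≤ N →
      Bounds N H r δ c C B M H (fun n => S n = g) (H / Fintype.card G)) ∧
    -- the asymptotic formula
    (∀ η : ℝ, 0 < η → ∃ (δ : ℝ) (H₀ : ℕ), 0 < δ ∧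
      ∀ H : ℕ, H₀ ≤ H → ∀ N : ℕ, Even N → ∀ (M : ℕ) (g : G) (y : ℕ), M + H ≤ N → 3 ≤ y → (y : ℝ) ≤ (H : ℝ) ^ δ →
      Rough N η M H y (fun n => S n = g) (H / Fintype.card G)) := by
  intro G _ _ b S hb hS
  constructor
  · intro B
    obtain ⟨r, δ, c, C, H₀, hδ, hc, hC, h⟩ := Pool.Agent.X55.Fam.dig_lin b hb S hS.1 hS.2 2 (by norm_num) B
    refine ⟨r, δ, c, C, max H₀ 1, hδ, hc, hC, ?_⟩
    intro H hH N hN M g hMN
    exact conv ((le_max_right _ _).trans hH) hMN (h H ((le_max_left _ _).trans hH) ca (cb N) ca_ne (adm hN) M g)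
  · intro η hη
    obtain ⟨δ, H₀, hδ, h⟩ := Pool.Agent.X55.Fam.dig_linA b hb S hS.1 hS.2 2 (by norm_num) η hη
    refine ⟨δ, H₀, hδ, ?_⟩
    intro H hH N hN M g y hMN hy hyH
    exact convA hMN (h H hH ca (cb N) (adm hN) M g y hy hyH)

end Pool.Agent.Results.MP_33f996_nt.DigitalFunctions
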