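import Pool.Agent.X28.NT.GbM

/-!
# At every scale: the distances of the exceptional numbers of Goldbach's problem are near differences of two primes, or
almost all admissible quintuples of bounded diameter are patterns of primes

Let `N` be large. A number `m` is a Goldbach number at the scale `N` if `m = p + q` for at least `N ^ (1 - η)` primes
`p` with `q` prime, where `p, q ≥ N / 24` (for large `N` these are greater than the square root of `m`, as the question
requires). A number `29 N / 48 ≤ m ≤ 15 N / 16` is exceptional if no Goldbach number at the scale `N` is within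
distance `C` of `m`. Nobody expects such numbers to exist. A number `d` is a difference at the scale `N` if `p` and
`p + d` are both prime for at least `N ^ (1 - η)` numbers `p ≤ 2 N`. We prove for all large `N`, with constants which
do not depend on `N`:

(1) Of any three exceptional numbers, at distances more than `C`, two are such that their distance is within `C` of a
difference.

(2) (A) The distance of ANY two exceptional numbers (if it is more than `C`) is within `C` of a difference, or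
(B) almost all admissible quintuples are patterns of primes: for every `w`, `H` with `w + H ≤ L` all the admissible
quintuples `x` of different numbers of `(w, w + H]`, with at most `K₀ H ^ (5 - 1 / K₀)` exceptions, are such that
`n + x_1, …, n + x_5` are all prime for at least `N ^ (1 - η)` numbers `n ≤ 2 N`. Moreover of any `T` classes of `K`
shifts below `L` (the shifts of all the classes together form an admissible set) more than `M` classes are hit at the
same time by primes `n + X g (σ g)`, whenever `6 M < 5 T`.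

Proof: the coloured Maynard-Tao theorem of the starting files with the constant `18 / 5` for linear forms whose constant
terms are as large as the variable (`Pool.Agent.Y827.GS.lamF0`, here with the range of the variable) is applied to
the forms `n`, `m₁ - n`, `m₂ - n` (and `m₃ - n`) and copies of the classes at their places. If (A) fails for `m₁`, `m₂`
then all the classes which are hit are in the same copy. A theorem of Erdős on complete `5`-partite subhypergraphs gives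
the bound for the number of the exceptional quintuples.
-/

set_option autoImplicit false

namespace Pool.Agent.Results.MP_33f996_nt.GoldbachExceptionsAndFiveTuples

open Filter

/-- `p` and `p + d` are both prime for at least `N ^ (1 - η)` numbers `p ≤ 2 N` -/
def Difference (N : ℕ) (η : ℝ) (d : ℕ) : Prop :=
  (N : ℝ) ^ (1 - η) ≤ ({p : ℕ | p ≤ 2 * N ∧ p.Prime ∧ (p + d).Prime}.ncard : ℝ)

/-- `m = p + q` with `p` and `q` prime, `p, q ≥ N / 24`, for at least `N ^ (1 - η)` numbers `p` -/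
def Goldbach (N : ℕ) (η : ℝ) (m : ℕ) : Prop :=
  (N : ℝ) ^ (1 - η) ≤
    ({p : ℕ | p ≤ m ∧ p.Prime ∧ (m - p).Prime ∧ N ≤ 24 * p ∧ N ≤ 24 * (m - p)}.ncard : ℝ)

/-- `29 N / 48 ≤ m ≤ 15 N / 16`, and no Goldbach number is within distance `C` of `m` -/
def Exceptional (C N : ℕ) (η : ℝ) (m : ℕ) : Prop :=
  29 * N ≤ 48 * m ∧ 16 * m ≤ 15 * N ∧ ∀ m' : ℕ, m' ≤ m + C → m ≤ m' + C → ¬ Goldbach N η m'

/-- `t - s` is within distance `C` of a difference -/
def NearDifference (C N : ℕ) (η : ℝ) (s t : ℕ) : Prop :=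
  ∃ d : ℕ, Difference N η d ∧ t ≤ s + d + C ∧ s + d ≤ t + C

/-- the numbers `x i` do not occupy all the residue classes modulo any prime `p` -/
def Admissible {T : ℕ} (x : Fin T → ℕ) : Prop :=
  ∀ p : ℕ, p.Prime → ∃ r : ℤ, ∀ i, ¬ ((p : ℤ) ∣ r + x i)

/-- all `n + x i` are prime for at least `N ^ (1 - η)` numbers `1 ≤ n ≤ 2 N` -/
def Pattern {T : ℕ} (N : ℕ) (η : ℝ) (x : Fin T → ℕ) : Prop :=
  (N : ℝ) ^ (1 - η) ≤ ({n : ℕ | 1 ≤ n ∧ n ≤ 2 * N ∧ ∀ i, (n + x i).Prime}.ncard : ℝ)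

theorem result : ∃ K₀ : ℕ, 1 ≤ K₀ ∧ ∀ T M : ℕ, 1 ≤ T → 6 * M < 5 * T → ∃ K : ℕ, 1 ≤ K ∧
    ∀ L : ℕ, ∃ C : ℕ, ∀ η : ℝ, 0 < η → ∀ᶠ N : ℕ in atTop,
      -- (1)
      (∀ m₁ m₂ m₃ : ℕ, m₁ + C < m₂ → m₂ + C < m₃ →
        Exceptional C N η m₁ → Exceptional C N η m₂ → Exceptional C N η m₃ →
        NearDifference C N η m₁ m₂ ∨ NearDifference C N η m₂ m₃ ∨ NearDifference C N η m₁ m₃) ∧
      -- (2) (A)
      ((∀ m₁ m₂ : ℕ, m₁ + C < m₂ → Exceptional C N η m₁ → Exceptional C N η m₂ →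
        NearDifference C N η m₁ m₂) ∨
      -- (2) (B)
      ((∀ w H : ℕ, 1 ≤ H → w + H ≤ L →
        ({x : Fin 5 → ℕ | (∀ i, w < x i ∧ x i ≤ w + H) ∧ Function.Injective x ∧
          Admissible x ∧ ¬ Pattern N η x}.ncard : ℝ) ≤ K₀ * (H : ℝ) ^ ((5 : ℝ) - 1 / (K₀ : ℝ))) ∧
      (∀ X : Fin T → Fin K → ℕ, (∀ g i, X g i ≤ L) →
        Function.Injective (fun z : Fin T × Fin K => X z.1 z.2) →
        (∀ p : ℕ, p.Prime → ∃ r : ℤ, ∀ g i, ¬ ((p : ℤ) ∣ r + X g i)) →
        ∃ (S : Finset (Fin T)) (σ : Fin T → Fin K), M + 1 ≤ S.card ∧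
          (N : ℝ) ^ (1 - η) ≤
            ({n : ℕ | 1 ≤ n ∧ n ≤ 2 * N ∧ ∀ g ∈ S, (n + X g (σ g)).Prime}.ncard : ℝ)))) := by
  classical
  have hD : ∀ (N : ℕ) (η : ℝ) (d : ℕ), Difference N η d ↔ Pool.Agent.X28.NT.DifS N η d := by
    intro N η d
    unfold Difference Pool.Agent.X28.NT.DifS
    have h1 : {p : ℕ | p ≤ 2 * N ∧ p.Prime ∧ (p + d).Prime} =
        ((Finset.Icc 1 (2 * N)).filter (fun p : ℕ => p.Prime ∧ (p + d).Prime) : Finset ℕ) := by
      ext p
      rw [Finset.coe_filter, Set.mem_ofPred_eq, Set.mem_ofPred_eq, Finset.mem_Icc]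
      constructor
      · rintro ⟨h1, h2, h3⟩
        exact ⟨⟨h2.one_lt.le, h1⟩, h2, h3⟩
      · rintro ⟨⟨-, h1⟩, h2, h3⟩
        exact ⟨h1, h2, h3⟩
    rw [h1, Set.ncard_coe_finset]
  have hG : ∀ (N : ℕ) (η : ℝ) (m : ℕ), Goldbach N η m ↔ Pool.Agent.X28.NT.GolS N η m := by
    intro N η m
    unfold Goldbach Pool.Agent.X28.NT.GolS
    have h1 : {p : ℕ | p ≤ m ∧ p.Prime ∧ (m - p).Prime ∧ N ≤ 24 * p ∧ N ≤ 24 * (m - p)} =
        ((Finset.Icc 1 m).filter (fun p : ℕ => p.Prime ∧ (m - p).Prime ∧ N ≤ 24 * p ∧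
          N ≤ 24 * (m - p)) : Finset ℕ) := by
      ext p
      rw [Finset.coe_filter, Set.mem_ofPred_eq, Set.mem_ofPred_eq, Finset.mem_Icc]
      constructor
      · rintro ⟨h1, h2, h3⟩
        exact ⟨⟨h2.one_lt.le, h1⟩, h2, h3⟩
      · rintro ⟨⟨-, h1⟩, h2, h3⟩
        exact ⟨h1, h2, h3⟩
    rw [h1, Set.ncard_coe_finset]
  have hE : ∀ (C N : ℕ) (η : ℝ) (m : ℕ), Exceptional C N η m ↔ Pool.Agent.X28.NT.Exc C N η m := by
    intro C N η m
    unfold Exceptional Pool.Agent.X28.NT.Exc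
    simp only [hG]
  have hP : ∀ (N : ℕ) (η : ℝ) (x : Fin 5 → ℕ), Pattern N η x ↔ Pool.Agent.X28.NT.Tup N η x := by
    intro N η x
    unfold Pattern Pool.Agent.X28.NT.Tup
    have h1 : {n : ℕ | 1 ≤ n ∧ n ≤ 2 * N ∧ ∀ i, (n + x i).Prime} =
        ((Finset.Icc 1 (2 * N)).filter (fun n : ℕ => ∀ i, (n + x i).Prime) : Finset ℕ) := by
      ext n
      rw [Finset.coe_filter, Set.mem_ofPred_eq, Set.mem_ofPred_eq, Finset.mem_Icc, and_assoc]
    rw [h1, Set.ncard_coe_finset]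
  obtain ⟨K₀, hK₀, H⟩ := Pool.Agent.X28.NT.mainB
  refine ⟨K₀, hK₀, fun T M hT hTM => ?_⟩
  obtain ⟨K, hK, H⟩ := H T M hT hTM
  refine ⟨K, hK, fun L => ?_⟩
  obtain ⟨C, H⟩ := H L
  refine ⟨C, fun η hη => ?_⟩
  filter_upwards [H η hη] with N hN
  obtain ⟨h1, hN⟩ := hN
  refine ⟨?_, ?_⟩
  · intro m₁ m₂ m₃ g1 g2 e1 e2 e3
    obtain ⟨d, hd, g3⟩ := h1 m₁ m₂ m₃ g1 g2 ((hE _ _ _ _).1 e1) ((hE _ _ _ _).1 e2) ((hE _ _ _ _).1 e3)
    rcases g3 with g3 | g3 | g3
    · exact Or.inl ⟨d, (hD _ _ _).2 hd, g3.1, g3.2⟩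
    · exact Or.inr (Or.inl ⟨d, (hD _ _ _).2 hd, g3.1, g3.2⟩)
    · exact Or.inr (Or.inr ⟨d, (hD _ _ _).2 hd, g3.1, g3.2⟩)
  rcases hN with hA | ⟨hB1, hB2⟩
  · left
    intro m₁ m₂ g1 e1 e2
    obtain ⟨d, hd, g3, g4⟩ := hA m₁ m₂ g1 ((hE _ _ _ _).1 e1) ((hE _ _ _ _).1 e2)
    exact ⟨d, (hD _ _ _).2 hd, g3, g4⟩
  · right
    refine ⟨fun w W h1 h2 => ?_, fun X h1 h2 h3 => ?_⟩
    · have h4 : {x : Fin 5 → ℕ | (∀ i, w < x i ∧ x i ≤ w + W) ∧ Function.Injective x ∧
          Admissible x ∧ ¬ Pattern N η x} =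
          ((Fintype.piFinset (fun _ : Fin 5 => Finset.Ioc w (w + W))).filter
            (fun x => Function.Injective x ∧ Pool.Agent.X28.NT.Adm x ∧
              ¬ Pool.Agent.X28.NT.Tup N η x) : Finset (Fin 5 → ℕ)) := by
        ext x
        rw [Finset.coe_filter, Set.mem_ofPred_eq, Set.mem_ofPred_eq, Fintype.mem_piFinset]
        simp only [Finset.mem_Ioc, hP]
        rfl
      rw [h4, Set.ncard_coe_finset]
      exact hB1 w W h1 h2
    · obtain ⟨S, σ, hS, h4⟩ := hB2 X h1 h2 h3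
      refine ⟨S, σ, hS, ?_⟩
      have h5 : {n : ℕ | 1 ≤ n ∧ n ≤ 2 * N ∧ ∀ g ∈ S, (n + X g (σ g)).Prime} =
          ((Finset.Icc 1 (2 * N)).filter
            (fun n : ℕ => ∀ g ∈ S, (n + X g (σ g)).Prime) : Finset ℕ) := by
        ext n
        rw [Finset.coe_filter, Set.mem_ofPred_eq, Set.mem_ofPred_eq, Finset.mem_Icc, and_assoc]
      rw [h5, Set.ncard_coe_finset]
      exact h4

end Pool.Agent.Results.MP_33f996_nt.GoldbachExceptionsAndFiveTuples
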