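import Pool.Agent.X31.L2
import Pool.Agent.X31.V2

/-!
# Simultaneous Goldbach representations of all the even numbers near
# the values of `n ^ k₀ log n` plus lower terms at integers with missing digits

`f(t) = t ^ k₀ log t + ∑ u_x t ^ x`, where `k₀ ≥ 1` is an integer and the sum is an arbitrary finite real combination of
real powers of `t` with exponents at most `k₀` (for instance `t log t - t`), `C` is the set of the integers with `m` digits
in base `b` whose digit at `b ^ j` is in `𝒟 j`, where the sets `𝒟 j` of allowed digits are arbitrary with at least TWO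
elements (for instance: the integers with the decimal digits `0` and `1` only; such sets can be as thin as `N ^ ε`). The
values considered are `b₀ + θ f(n)`, `n ∈ C`.
For almost all vectors `(n_1, ..., n_k)` of elements of ARBITRARY dense subsets of `k` such sets, ALL vectors
`(m_1, ..., m_k)` of different positive integers without local obstruction within `log ^ D N` of the values satisfy the
asymptotic formula of Hardy and Littlewood for the number of the primes `p` for which all the `m_i - p` are primes, in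
every window for `p` of length at least `N / log ^ A N`. For `k = 1` the numbers without local obstruction are the
even numbers.

The minimal real additive energy of these values is from `Pool.Agent.X31.V1`, `V2` and `R1` - `R3` (in this run); the theorem
for products of families with small energies is `Pool.Agent.TH935.TF.fam_sys` (starting files).
-/

set_option autoImplicit false

namespace Pool.Agent.Results.MP_33f996_nt.LogPowerSums

open Finset Filter Topology
open Pool.Agent.TH935.TF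

/-- the integers `0 ≤ n < b ^ m` whose digit at `b ^ j` in base `b` is in `𝒟 j`, for all `j < m` -/
def Digits (b : ℕ) (𝒟 : ℕ → Finset ℕ) (m : ℕ) : Finset ℕ :=
  (range (b ^ m)).filter (fun n => ∀ j < m, n / b ^ j % b ∈ 𝒟 j)

/-- the function `t ^ k₀ log t + ∑ u x * t ^ x` (over the exponents `x ∈ F`) -/
noncomputable def f (k₀ : ℕ) (F : Finset ℝ) (u : ℝ → ℝ) (t : ℝ) : ℝ := t ^ k₀ * Real.log t + ∑ x ∈ F, u x * t ^ x

/-- `M` is a subset with at least `#(Digits b 𝒟 m) / log ^ D N` elements of the set `Digits b 𝒟 m`, where all sets `𝒟 j`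
of allowed digits have at least two elements; the number `θ` is at most `log ^ D N` and at least
`N / (b ^ (k₀ m) log ^ D N)` in absolute value, and `|b₀ + θ f(n)| ≤ N` for all `n ∈ M`. -/
def Fam (b k₀ : ℕ) (F : Finset ℝ) (u : ℝ → ℝ) (D N m : ℕ) (𝒟 : ℕ → Finset ℕ) (θ b₀ : ℝ) (M : Finset ℕ) : Prop :=
  (∀ j, 𝒟 j ⊆ range b ∧ 2 ≤ (𝒟 j).card) ∧
  |θ| ≤ Real.log N ^ D ∧ (N : ℝ) / Real.log N ^ D ≤ |θ| * ((b : ℝ) ^ m) ^ k₀ ∧
  M ⊆ Digits b 𝒟 m ∧ ((Digits b 𝒟 m).card : ℝ) / Real.log N ^ D ≤ M.card ∧ ∀ n ∈ M, |b₀ + θ * f k₀ F u n| ≤ N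

/-- The number of the primes `p` with `y₁ < p ≤ y₂` for which all the numbers `m i - p` are primes. -/
def rep {K : ℕ} (m : Fin K → ℕ) (y₁ y₂ : ℕ) : ℕ :=
  ((Ioc y₁ y₂).filter (fun p : ℕ => p.Prime ∧ ∀ i, (m i - p).Prime)).card

/-- The number of the different residues modulo `p` among the numbers `0, m 1, ..., m K`. -/
def nu {K : ℕ} (m : Fin K → ℕ) (p : ℕ) : ℕ := (insert 0 (univ.image (fun i => m i % p))).card

/-- There is no local obstruction: for no prime `p` do the numbers `0, m 1, ..., m K` meet all the classes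
modulo `p`. -/
def NoObstruction {K : ℕ} (m : Fin K → ℕ) : Prop := ∀ p : ℕ, p.Prime → nu m p < p

/-- The partial products `∏_{p ≤ z} (1 - ν(p) / p) / (1 - 1 / p) ^ (K + 1)` of the singular series. -/
noncomputable def sing {K : ℕ} (m : Fin K → ℕ) (z : ℕ) : ℝ :=
  ∏ p ∈ (Icc 1 z).filter Nat.Prime, (1 - (nu m p : ℝ) / p) / (1 - 1 / (p : ℝ)) ^ (K + 1)

/-- The singular series converges to a number `S ≥ δ`, and for every window `(y₁, y₂]` with `y₂ ≤ B N`, `y₂ ≤ m i` for
all `i`, and `y₂ - y₁ ≥ N / log ^ A N`, the number of the primes `p` in the window for which all the `m i - p` are primes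
agrees with `S (y₂ - y₁) / log ^ (K + 1) N` up to a relative error of at most `ε`. -/
def Holds (ε δ : ℝ) (A B N : ℕ) {K : ℕ} (m : Fin K → ℕ) : Prop :=
  ∃ S : ℝ, δ ≤ S ∧ Tendsto (sing m) atTop (𝓝 S) ∧
    ∀ y₁ y₂ : ℕ, y₁ < y₂ → y₂ ≤ B * N → (∀ i, y₂ ≤ m i) → (N : ℝ) / Real.log N ^ A ≤ (y₂ : ℝ) - y₁ →
      |(rep m y₁ y₂ : ℝ) - S * ((y₂ : ℝ) - y₁) / Real.log N ^ (K + 1)| ≤
        ε * (S * ((y₂ : ℝ) - y₁) / Real.log N ^ (K + 1))

lemma om_eq {K : ℕ} (m : Fin K → ℕ) (p : ℕ) (hp : 0 < p) :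
    om (consA (fun _ : Fin K => (-1 : ℤ))) (consB (fun i => (m i : ℤ))) p = nu m p := by
  unfold om nu
  congr 1
  ext r
  rw [mem_filter, mem_range, mem_insert, mem_image]
  constructor
  · rintro ⟨hr, i, h⟩
    revert h
    refine Fin.cases ?_ (fun i => ?_) i
    · intro h
      left
      rw [consA_zero, consB_zero, one_mul, add_zero, Int.natCast_dvd_natCast] at h
      exact Nat.eq_zero_of_dvd_of_lt h hr
    · intro h
      right
      rw [consA_succ, consB_succ] at h
      refine ⟨i, mem_univ i, ?_⟩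
      have h1 : (m i : ℤ) ≡ (r : ℤ) [ZMOD (p : ℤ)] := by
        rw [Int.modEq_iff_dvd]
        have e : (r : ℤ) - (m i : ℤ) = -(-1 * (r : ℤ) + (m i : ℤ)) := by ring
        rw [e]
        exact (dvd_neg).2 h
      have h2 : m i ≡ r [MOD p] := (Int.natCast_modEq_iff).1 h1
      unfold Nat.ModEq at h2
      rw [h2, Nat.mod_eq_of_lt hr]
  · rintro (h | ⟨i, _, h⟩)
    · subst h
      exact ⟨hp, 0, by rw [consA_zero, consB_zero]; simp⟩
    · refine ⟨by rw [← h]; exact Nat.mod_lt _ hp, i.succ, ?_⟩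
      rw [consA_succ, consB_succ]
      have h2 : r ≡ m i [MOD p] := by
        rw [← h]
        exact Nat.mod_modEq _ _
      have h3 := (Nat.modEq_iff_dvd).1 h2
      have e : -1 * (r : ℤ) + (m i : ℤ) = (m i : ℤ) - (r : ℤ) := by ring
      rw [e]
      exact h3

lemma sing_eq {K : ℕ} (m : Fin K → ℕ) :
    (fun z => Gz (om (consA (fun _ : Fin K => (-1 : ℤ))) (consB (fun i => (m i : ℤ)))) (K + 1) z) = sing m := by
  funext z
  unfold Gz sing Fq Pool.Agent.H373R2.T7.pz
  apply prod_congr rfl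
  intro p hp
  rw [om_eq m p (mem_filter.1 hp).2.pos]

lemma adm_of {K : ℕ} (m : Fin K → ℕ) (h : NoObstruction m) :
    Adm (consA (fun _ : Fin K => (-1 : ℤ))) (consB (fun i => (m i : ℤ))) := by
  intro p hp
  have h1 := h p hp
  rw [← om_eq m p hp.pos] at h1
  by_contra hcon
  push Not at hcon
  have h2 : (range p).filter (fun r : ℕ => ∃ i, (p : ℤ) ∣
      consA (fun _ : Fin K => (-1 : ℤ)) i * (r : ℤ) + consB (fun i => (m i : ℤ)) i) = range p := by
    apply filter_true_of_mem
    intro r _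
    obtain ⟨i, hi⟩ := hcon r
    exact ⟨i, hi⟩
  unfold om at h1
  rw [h2, card_range] at h1
  exact lt_irrefl _ h1

lemma dist_of {K : ℕ} (m : Fin K → ℕ) (hpos : ∀ i, 0 < m i) (hd : Function.Injective m) :
    Dist (consA (fun _ : Fin K => (-1 : ℤ))) (consB (fun i => (m i : ℤ))) := by
  intro i j hij
  revert hij
  refine Fin.cases ?_ (fun i => ?_) i <;> refine Fin.cases ?_ (fun j => ?_) j
  · intro h
    exact absurd rfl h
  · intro _
    simp only [consA_zero, consA_succ, consB_zero, consB_succ]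
    have := hpos j
    constructor <;> omega
  · intro _
    simp only [consA_zero, consA_succ, consB_zero, consB_succ]
    have := hpos i
    constructor <;> omega
  · intro h
    simp only [consA_succ, consB_succ]
    have h1 : m i ≠ m j := fun h2 => h (by rw [hd h2])
    constructor
    · rintro ⟨_, h3⟩
      exact h1 (by exact_mod_cast h3)
    · omega

lemma cn_eq {K : ℕ} (m : Fin K → ℕ) (y₁ y₂ : ℕ) (h : ∀ i, y₂ ≤ m i) :
    cn (consA (fun _ : Fin K => (-1 : ℤ))) (consB (fun i => (m i : ℤ))) y₁ y₂ = rep m y₁ y₂ := by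
  unfold cn rep
  congr 1
  apply filter_congr
  intro n hn
  rw [mem_Ioc] at hn
  have e : ∀ i, (-1 * (n : ℤ) + (m i : ℤ)).natAbs = m i - n := by
    intro i
    have := h i
    omega
  constructor
  · intro h1
    refine ⟨?_, fun i => ?_⟩
    · have h2 := h1 0
      rw [consA_zero, consB_zero, one_mul, add_zero, Int.natAbs_natCast] at h2
      exact h2
    · have h2 := h1 i.succ
      rw [consA_succ, consB_succ, e i] at h2
      exact h2
  · rintro ⟨h1, h2⟩ i
    refine Fin.cases ?_ (fun i => ?_) i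
    · rw [consA_zero, consB_zero, one_mul, add_zero, Int.natAbs_natCast]
      exact h1
    · rw [consA_succ, consB_succ, e i]
      exact h2 i

/-- for one number there is no local obstruction exactly if it is even -/
lemma one_even (n : ℕ) : NoObstruction (fun _ : Fin 1 => n) ↔ Even n := by
  rw [even_iff_two_dvd]
  constructor
  · intro h
    have h1 := h 2 Nat.prime_two
    by_contra hcon
    have h2 : n % 2 = 1 := by omega
    unfold nu at h1
    simp only [h2] at h1
    have h3 : (univ.image (fun _ : Fin 1 => 1) : Finset ℕ) = {1} := by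
      ext x
      simp
    rw [h3] at h1
    revert h1
    decide
  · intro h p hp
    unfold nu
    have h3 : (univ.image (fun _ : Fin 1 => n % p) : Finset ℕ) = {n % p} := by
      ext x
      simp
    rw [h3]
    rcases hp.eq_two_or_odd with h2 | h2
    · subst h2
      have h4 : n % 2 = 0 := by omega
      rw [h4]
      decide
    · have h4 : (insert 0 {n % p} : Finset ℕ).card ≤ 2 := card_le_two
      have := hp.two_le
      omega

lemma dat_of {b k₀ : ℕ} {F : Finset ℝ} {u : ℝ → ℝ} {D N m : ℕ} {𝒟 : ℕ → Finset ℕ} {θ b₀ : ℝ} {M : Finset ℕ}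
    (h : Fam b k₀ F u D N m 𝒟 θ b₀ M) :
    Pool.Agent.X31.CT.Dat3 b k₀ D N m 𝒟 θ b₀ (Pool.Agent.X31.lgp k₀ F u) M :=
  ⟨h.1, h.2.1, by rw [Real.rpow_natCast]; exact h.2.2.1, h.2.2.2.1, h.2.2.2.2.1, h.2.2.2.2.2⟩

/-- Part 1. For every `k ≥ 1` there is `δ > 0` with the following property. Let `b i ≥ 2`, `k₀ i ≥ 1` be integers and let `F i` be finite sets of real numbers `x ≤ k₀ i` (`i < k`). Let `A`, `B`, `D`, `U` be
natural numbers and `ε > 0`. For all sufficiently large `N`, all numbers `m i` of digits, ALL sets `𝒟 i j` of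
allowed digits, all real `θ i`, `b₀ i` and all sets `M i` with
`Fam (b i) (k₀ i) (F i) (u i) D N (m i) (𝒟 i) (θ i) (b₀ i) (M i)`: for all but at most
`(∏ #(M i)) / log ^ U N` of the vectors `n` with `n i ∈ M i`, ALL vectors `s` of different positive integers without local
obstruction with `|s i - (b₀ i + θ i * f (k₀ i) (F i) (u i) (n i))| ≤ log ^ D N` satisfy `Holds ε δ A B N s`.

Part 2. For `k = 1` there is no local obstruction exactly if the number is even. -/
theorem result :
    (∀ k : ℕ, 1 ≤ k → ∃ δ : ℝ, 0 < δ ∧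
      ∀ (b k₀ : Fin k → ℕ) (hb : ∀ i, 2 ≤ b i) (hk₀ : ∀ i, 1 ≤ k₀ i) (F : Fin k → Finset ℝ)
    (u : Fin k → ℝ → ℝ) (hF : ∀ i, ∀ x ∈ F i, x ≤ k₀ i),
      ∀ (A B D U : ℕ) (ε : ℝ), 0 < ε → ∃ N₀ : ℕ, ∀ N : ℕ, N₀ ≤ N →
      ∀ (m : Fin k → ℕ) (𝒟 : Fin k → ℕ → Finset ℕ) (θ b₀ : Fin k → ℝ) (M : Fin k → Finset ℕ),
        (∀ i, Fam (b i) (k₀ i) (F i) (u i) D N (m i) (𝒟 i) (θ i) (b₀ i) (M i)) →
      ∃ E : Finset (Fin k → ℕ), (E.card : ℝ) ≤ (∏ i, ((M i).card : ℝ)) / Real.log N ^ U ∧
        ∀ n : Fin k → ℕ, (∀ i, n i ∈ M i) → n ∉ E → ∀ s : Fin k → ℕ, (∀ i, 0 < s i) →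
          Function.Injective s → NoObstruction s →
          (∀ i, |(s i : ℝ) - (b₀ i + θ i * f (k₀ i) (F i) (u i) (n i))| ≤ Real.log N ^ D) → Holds ε δ A B N s) ∧
    (∀ n : ℕ, NoObstruction (fun _ : Fin 1 => n) ↔ Even n) := by
  classical
  refine ⟨fun k hk => ?_, one_even⟩
  obtain ⟨δ, hδ, hlow⟩ := Gz_low (k + 1) (by omega)
  refine ⟨δ, hδ, fun b k₀ hb hk₀ F u hF A B D U ε hε => ?_⟩
  obtain ⟨N₀, h0⟩ := Pool.Agent.X31.Sch.tuples (ι := fun _ => ℕ)
    (Q := fun i => Pool.Agent.X31.PRg (b i) (k₀ i) (Pool.Agent.X31.lgp (k₀ i) (F i) (u i)))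
    (fun i => Pool.Agent.X31.Sch_lg (hb i) (k₀ i) (hk₀ i) (F i) (u i) (hF i)) D U _
    (fun h _ => Pool.Agent.X31.famT_sys (sys_lam k hk) hk h A B 0 ε hε)
  refine ⟨N₀ + 3, fun N hN m 𝒟 θ b₀ M hfam => ?_⟩
  have hl : 0 < Real.log N := Real.log_pos (by exact_mod_cast (by omega : 1 < N))
  refine ⟨(Fintype.piFinset M).filter (fun n => ¬ ∀ s : Fin k → ℕ, (∀ i, 0 < s i) →
          Function.Injective s → NoObstruction s →
          (∀ i, |(s i : ℝ) - (b₀ i + θ i * f (k₀ i) (F i) (u i) (n i))| ≤ Real.log N ^ D) → Holds ε δ A B N s), ?_, ?_⟩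
  swap
  · intro n hn hnE
    rw [mem_filter] at hnE
    by_contra hcon
    exact hnE ⟨Fintype.mem_piFinset.2 hn, hcon⟩
  · apply h0 N (by omega) M (fun i n => (b₀ i + θ i * f (k₀ i) (F i) (u i) n)) (fun i => ⟨m i, 𝒟 i, θ i, b₀ i, dat_of (hfam i), fun _ => rfl⟩)
    · intro n hn i
      rw [mem_filter] at hn
      exact Fintype.mem_piFinset.1 hn.1 i
    · intro n hn
      rw [mem_filter] at hn
      obtain ⟨_, hn⟩ := hn
      push Not at hn
      obtain ⟨m, hm0, hmi, hadm, hm1, hm2⟩ := hn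
      refine ⟨fun i => (m i : ℤ), fun i => ?_, fun hG => hm2 ?_⟩
      · have := hm1 i
        push_cast
        exact this
      · have hA := adm_of m hadm
        have hD := dist_of m hm0 hmi
        obtain ⟨S, hS0, hS1, hS2⟩ := hG (fun _ => (-1 : ℤ)) (fun _ => by norm_num) (fun _ => by norm_num) hA hD
        have hloc := loc_of hA hD ((sys_lam k hk).ne _ (fun _ => by norm_num))
        refine ⟨S, ?_, ?_, fun y₁ y₂ h12 hy2 hy3 hw => ?_⟩
        · exact ge_of_tendsto' hS1 (fun z => hlow _ _ hloc z)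
        · rw [← sing_eq m]
          exact hS1
        · have h3 := hS2 y₁ y₂ h12.le hy2 hw
          rw [cn_eq m y₁ y₂ hy3] at h3
          exact h3

end Pool.Agent.Results.MP_33f996_nt.LogPowerSums
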